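import Mathlib
import Pool.Agent.R352.E.Gz

set_option autoImplicit false

/-!
# The positive rational numbers at which the Gompertz function is algebraic

For a positive rational number `x` let `δ(x) = ∫_0^∞ e^(-s) / (x + s) ds`, so that `δ(1)` is the
Gompertz constant. Let `X` be the set of the positive rational numbers `x` for which `δ(x)` is
algebraic over the field `ℚ(e)`.

(1) The numbers `e` and `γ + log x` (`x ∈ X`) are algebraically independent over `ℚ`.

(2) If `∏ x^(n_x) = 1` with integers `n_x` (`x ∈ X`, almost all of them `0`) of sum `0`, then all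
`n_x` are `0`. So `X` contains no three different terms `x, y, z` of a geometric progression
(`x z = y²`): one of `δ(1), δ(2), δ(4)` is transcendental over `ℚ(e)`.

(3) For all `N` at most `π(N) + 1` of the numbers `δ(1), δ(2), …, δ(N)` are algebraic over `ℚ(e)`.

(4) For integers `l ≥ 1` let `δ_l(x) = ∫_0^∞ log (1 + s / x)^l e^(-s) ds`; then `δ_1 = δ`. For every
finite set `F` of positive rational numbers and every `c ≥ 0` at most `|F| + c + 2` of the
`(2c + 4) |F|` numbers `δ_l(x)` (`1 ≤ l ≤ 2c + 4`, `x ∈ F`) are algebraic over `ℚ(e)`.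
-/

namespace Pool.Agent.Results.MP_c7d1c4_nt.ExceptionalPoints

open Set

/-- `δ(x) = ∫_0^∞ e^(-s) / (x + s) ds` -/
noncomputable def delta (x : ℚ) : ℝ := ∫ s in Ioi (0 : ℝ), Real.exp (-s) / ((x : ℝ) + s)

/-- `δ_l(x) = ∫_0^∞ log (1 + s / x)^l e^(-s) ds` -/
noncomputable def deltaLevel (l : ℕ) (x : ℚ) : ℝ :=
  ∫ s in Ioi (0 : ℝ), Real.log (1 + s / (x : ℝ)) ^ l * Real.exp (-s)

/-- `x` is algebraic over `ℚ(e)` -/
def AlgebraicOverE (x : ℝ) : Prop := IsAlgebraic (IntermediateField.adjoin ℚ {Real.exp 1}) x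

/-- the set `X` of the positive rational numbers `x` for which `δ(x)` is algebraic over `ℚ(e)` -/
def X : Set ℚ := {x | 0 < x ∧ AlgebraicOverE (delta x)}

theorem indep : AlgebraicIndependent ℚ (fun o : Option X => o.elim (Real.exp 1)
    fun x => Real.eulerMascheroniConstant + Real.log (x : ℚ)) := by
  refine Pool.Agent.R352.E.ai_gz X (fun x hx => ⟨hx.1, Pool.Agent.R352.E.mem_clF.2 hx.2⟩) _ fun x => ?_
  exact Pool.Agent.R352.E.subset_clF _ (Or.inr rfl)

theorem level (c : ℕ) (F : Finset ℚ) (hF : ∀ x ∈ F, 0 < x) :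
    {p : Fin (2 * c + 4) × ℚ | p.2 ∈ F ∧ AlgebraicOverE (deltaLevel (p.1 + 1) p.2)}.encard ≤
      ((F.card + c + 2 : ℕ) : ℕ∞) := by
  classical
  refine Pool.Agent.R352.E.encard_le_of_finset _ _ fun t ht => ?_
  let e := Fintype.equivFin F
  let y : Fin (Fintype.card F) → ℝ := fun i => Real.eulerMascheroniConstant + Real.log ((e.symm i : F) : ℚ)
  let f : Fin (2 * c + 4) × ℚ → Fin (c + 2) ⊕ Fin (Fintype.card F) ⊕ (Fin (2 * c + 4) × ℚ) := fun p => Sum.inr (Sum.inr p)
  have hf : Function.Injective f := Sum.inr_injective.comp Sum.inr_injective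
  have h := Pool.Agent.R352.E.count_zeta y (t.map ⟨f, hf⟩) ?_ ?_
  · rw [Finset.card_map, Fintype.card_coe] at h
    omega
  · intro i hi
    obtain ⟨j, hj, rfl⟩ := Finset.mem_map.1 hi
    have h5 : Pool.Agent.R352.E.gval (2 * c + 4) (Pool.Agent.R352.E.con3 c) y (f j) = deltaLevel (j.1 + 1) j.2 := by
      simp [f, Pool.Agent.R352.E.gval, deltaLevel, Pool.Agent.R352.E.dl]
    rw [Function.Embedding.coeFn_mk, h5]
    exact Pool.Agent.R352.E.mem_clF.2 (ht hj).2
  · intro p hp
    obtain ⟨j, hj, hjp⟩ := Finset.mem_map.1 hp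
    have h1 : j = p := hf hjp
    subst h1
    have h2 : j.2 ∈ F := (ht hj).1
    refine ⟨hF _ h2, Pool.Agent.R352.E.subset_clF _ (Or.inr ⟨e ⟨j.2, h2⟩, ?_⟩)⟩
    simp [y]

theorem result :
    -- (1)
    AlgebraicIndependent ℚ (fun o : Option X => o.elim (Real.exp 1)
      fun x => Real.eulerMascheroniConstant + Real.log (x : ℚ)) ∧
    -- (2)
    (∀ n : X →₀ ℤ, n.sum (fun _ m => m) = 0 → n.prod (fun x m => (x : ℚ) ^ m) = 1 → n = 0) ∧
    (∀ x ∈ X, ∀ y ∈ X, ∀ z ∈ X, x * z = y ^ 2 → x = y ∧ y = z) ∧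
    -- (3)
    (∀ N : ℕ, {n : ℕ | 1 ≤ n ∧ n ≤ N ∧ AlgebraicOverE (delta n)}.encard ≤ ((Nat.primeCounting N + 1 : ℕ) : ℕ∞)) ∧
    -- (4)
    (∀ x : ℚ, 0 < x → deltaLevel 1 x = delta x) ∧
    (∀ (c : ℕ) (F : Finset ℚ), (∀ x ∈ F, 0 < x) →
      {p : Fin (2 * c + 4) × ℚ | p.2 ∈ F ∧ AlgebraicOverE (deltaLevel (p.1 + 1) p.2)}.encard ≤
        ((F.card + c + 2 : ℕ) : ℕ∞)) := by
  have hrel := Pool.Agent.R352.E.gz_rel (X := X) (fun x hx => hx.1) indep
  refine ⟨indep, hrel, ?_, fun N => ?_, fun x hx => ?_, level⟩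
  · intro x hx y hy z hz hxyz
    by_contra hcon
    have hx0 : x ≠ 0 := hx.1.ne'
    have hxy : x ≠ y := by
      rintro rfl
      apply hcon
      refine ⟨rfl, ?_⟩
      have : x * (z - x) = 0 := by linear_combination hxyz
      rcases mul_eq_zero.1 this with h | h
      · exact absurd h hx0
      · linarith
    have hzy : z ≠ y := by
      rintro rfl
      apply hxy
      have hz0 : z ≠ 0 := hz.1.ne'
      have : z * (x - z) = 0 := by linear_combination hxyz
      rcases mul_eq_zero.1 this with h | h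
      · exact absurd h hz0
      · linarith
    have hxz : x ≠ z := by
      rintro rfl
      have h1 : (x - y) * (x + y) = 0 := by linear_combination hxyz
      rcases mul_eq_zero.1 h1 with h | h
      · exact hxy (by linarith)
      · have := hx.1
        have := hy.1
        linarith
    let n : X →₀ ℤ := Finsupp.single ⟨x, hx⟩ 1 + Finsupp.single ⟨z, hz⟩ 1 + Finsupp.single ⟨y, hy⟩ (-2)
    have hn0 : n.sum (fun _ m => m) = 0 := by
      rw [Finsupp.sum_add_index' (fun _ => rfl) (fun _ _ _ => rfl), Finsupp.sum_add_index' (fun _ => rfl) (fun _ _ _ => rfl),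
        Finsupp.sum_single_index rfl, Finsupp.sum_single_index rfl, Finsupp.sum_single_index rfl]
      norm_num
    have hn1 : n.prod (fun x m => (x : ℚ) ^ m) = 1 := by
      have hadd : ∀ (a : X) (b₁ b₂ : ℤ), (a : ℚ) ^ (b₁ + b₂) = (a : ℚ) ^ b₁ * (a : ℚ) ^ b₂ := fun a b₁ b₂ =>
        zpow_add₀ a.2.1.ne' b₁ b₂
      rw [Finsupp.prod_add_index' (fun a => zpow_zero _) (fun a b₁ b₂ => hadd a b₁ b₂),
        Finsupp.prod_add_index' (fun a => zpow_zero _) (fun a b₁ b₂ => hadd a b₁ b₂),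
        Finsupp.prod_single_index (zpow_zero _), Finsupp.prod_single_index (zpow_zero _),
        Finsupp.prod_single_index (zpow_zero _)]
      simp only [zpow_one]
      rw [hxyz]
      have hy0 : y ≠ 0 := hy.1.ne'
      rw [zpow_neg]
      field_simp
    have h2 := hrel n hn0 hn1
    have h3 : n ⟨x, hx⟩ = 0 := by rw [h2]; rfl
    have e1 : (⟨z, hz⟩ : X) ≠ ⟨x, hx⟩ := fun h => hxz (congrArg Subtype.val h).symm
    have e2 : (⟨y, hy⟩ : X) ≠ ⟨x, hx⟩ := fun h => hxy (congrArg Subtype.val h).symm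
    simp [n, e1, e2] at h3
  · refine Pool.Agent.R352.E.encard_le_of_finset _ _ fun t ht => ?_
    refine Pool.Agent.R352.E.gz_count (X := X) indep N t fun n hn => ?_
    obtain ⟨h1, h2, h3⟩ := ht hn
    refine ⟨h1, h2, ?_, h3⟩
    exact_mod_cast h1
  · have hx' : (0 : ℝ) < x := by exact_mod_cast hx
    exact Pool.Agent.R352.E.dl_one hx'

end Pool.Agent.Results.MP_c7d1c4_nt.ExceptionalPoints
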